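import Pool.Agent.Helper97.SZ.Goals

/-!
# PACKET SZ-CORE (MP_126465_gt): local embedding implies standard and invertible
-/

set_option autoImplicit false

open Set Filter Topology Metric
open scoped ContDiff

namespace Pool.Agent.Helper12.SZ

open Pool.Agent.Helper91.SY Pool.Agent.Helper97.SZ

/-- the vector with one coordinate `1` in the first factor -/
noncomputable def ev {n : ℕ} (i : Fin n) : V n := (Pi.single i 1, 0)

/-- the coordinate -/
noncomputable def co {n : ℕ} (i : Fin n) : V n →L[ℝ] ℝ :=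
  (ContinuousLinearMap.proj (R := ℝ) (φ := fun _ : Fin n => ℝ) i).comp
    (ContinuousLinearMap.fst ℝ (Fin n → ℝ) (Fin n → ℝ))

theorem co_apply {n : ℕ} (i : Fin n) (x : V n) : co i x = x.1 i := rfl

theorem co_ev {n : ℕ} (i j : Fin n) : co i (ev j) = if i = j then 1 else 0 := by
  rw [co_apply, ev]
  by_cases h : i = j
  · subst h; simp
  · simp [h]

theorem abs_co_le {n : ℕ} (i : Fin n) (x : V n) : |co i x| ≤ ‖x‖ := by
  rw [co_apply, ← Real.norm_eq_abs]
  exact (norm_le_pi_norm x.1 i).trans (norm_fst_le x)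

theorem norm_ev {n : ℕ} (i : Fin n) : ‖ev i‖ = 1 := by
  apply le_antisymm
  · rw [ev, Prod.norm_mk, norm_zero]
    refine max_le ?_ zero_le_one
    rw [pi_norm_le_iff_of_nonneg zero_le_one]
    intro j
    by_cases h : j = i
    · subst h; simp
    · simp [Pi.single_eq_of_ne h]
  · have h := abs_co_le i (ev i)
    rw [co_ev, if_pos rfl, abs_one] at h
    exact h

/-- the pair, far away -/
theorem pair_far {n : ℕ} (hn : 2 ≤ n) (hPR : StmtPAIR) (hMV : StmtMOVE) (hIS : StmtIS)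
    (B Z : V n → V n →L[ℝ] V n →L[ℝ] ℝ) (B0 : V n →L[ℝ] V n →L[ℝ] ℝ) (R D D₁ : ℝ) (e : V n)
    (l : V n →L[ℝ] ℝ) (hR : 0 < R) (hRD : R < D) (hB : Symp B) (hBF : Far R B B0) (hZ : Symp Z)
    (hZF : Far D Z B0) (he : ‖e‖ = 1) (hl : l e = 1) (hll : ∀ x, |l x| ≤ ‖x‖)
    (hI : Iso (closedBall 0 D₁) (ins B0 B Z ((D + R + 1) • e) 1) (fun _ => B0)) :
    ∃ S₀ : ℝ, ∀ S : ℝ, S₀ ≤ S → ∃ F : V n ≃ V n, Sm F ∧
      (∀ x, S - 1 ≤ |l x - S / 2| → F x = x) ∧
      Pull (fun x => F x) (ins B0 B Z (S • e) 1) (fun _ => B0) := by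
  have hmv := hMV n hn B Z B0 R (fun t => ((2 * D + R + 1) + t * (-D)) • e) (fun _ => 1)
    (closedBall 0 (2 * D + R + 1 + R) ∩ {x | D ≤ ‖x‖}) hR hB hBF hZ (by fun_prop)
    contDiff_const (fun _ _ => one_pos)
    ((isCompact_closedBall _ _).inter_right (isClosed_le continuous_const continuous_norm))
    (by
      intro t ht x hx
      rw [one_mul] at hx
      obtain ⟨ht0, ht1⟩ := ht
      have hc : ‖((2 * D + R + 1) + t * (-D)) • e‖ = (2 * D + R + 1) + t * (-D) := by
        rw [norm_smul, he, mul_one, Real.norm_of_nonneg]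
        nlinarith
      have h1 : ‖x‖ ≤ ‖x - ((2 * D + R + 1) + t * (-D)) • e‖ +
          ‖((2 * D + R + 1) + t * (-D)) • e‖ := by
        have := norm_add_le (x - ((2 * D + R + 1) + t * (-D)) • e)
          (((2 * D + R + 1) + t * (-D)) • e)
        rwa [sub_add_cancel] at this
      have h2 : ‖((2 * D + R + 1) + t * (-D)) • e‖ ≤
          ‖x - ((2 * D + R + 1) + t * (-D)) • e‖ + ‖x‖ := by
        have := norm_sub_le x (x - ((2 * D + R + 1) + t * (-D)) • e)
        rw [sub_sub_cancel] at this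
        linarith
      rw [hc] at h1 h2
      refine ⟨?_, ?_⟩
      · rw [mem_closedBall_zero_iff]
        nlinarith
      · show D ≤ ‖x‖
        nlinarith)
    (fun x hx => hZF x hx.2)
  have e0 : ((2 * D + R + 1) + (0 : ℝ) * (-D)) • e = (2 * D + R + 1) • e := by
    rw [zero_mul, add_zero]
  have e1 : ((2 * D + R + 1) + (1 : ℝ) * (-D)) • e = (D + R + 1) • e := by
    congr 1
    ring
  rw [e0, e1] at hmv
  obtain ⟨_, _, htrans, hmono, _⟩ := hIS (V n)
  have h3 := htrans _ _ _ _ _ hmv hI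
  have h4 := hmono _ (closedBall 0 (max (2 * D + R + 1 + R) D₁)) _ _ (by
    refine union_subset (inter_subset_left.trans ?_) ?_
    · exact closedBall_subset_closedBall (le_max_left _ _)
    · exact closedBall_subset_closedBall (le_max_right _ _)) h3
  exact hPR n hn B Z B0 D _ (2 * D + R + 1) e l (by linarith) hB
    (fun x hx => hBF x (by linarith)) hZ hZF (by linarith) he hl hll h4

theorem core (hNR : StmtNRM) (hS1 : StmtSL1) (hS2 : StmtSL2) (hPR : StmtPAIR) (hSW : StmtSW)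
    (hMV : StmtMOVE) (hIS : StmtIS) : StmtCORE := by
  intro n hn B B0 R ψ U hR hB hBF hU hsub hψ hinj hpull
  have i0 : Fin n := ⟨0, by omega⟩
  obtain ⟨i0, i1, h01⟩ : ∃ i0 i1 : Fin n, i0 ≠ i1 :=
    ⟨⟨0, by omega⟩, ⟨1, by omega⟩, by simp⟩
  have : Nonempty (Fin n) := ⟨i0⟩
  obtain ⟨ψ₁, hψ₁, hinj₁, hψ₁0, hψ₁d, hpull₁⟩ :=
    hNR n hn B B0 R ψ U (ev i1) hR hB hBF hU hsub hψ hinj hpull (norm_ev i1)
  have h4 : ((1 / 4 : ℝ))⁻¹ = 4 := by norm_num
  obtain ⟨G, Z, D, hRD, hG, hGid, hGψ, hZ, hZF, hZ0, hGp⟩ :=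
    hS1 (V n) B B0 R ψ₁ U ((3 / 4 * R) • ev i1) (1 / 4) hR (by norm_num)
      (by
        rw [norm_smul, norm_ev, mul_one, Real.norm_of_nonneg (by positivity)]
        linarith) hB hBF hU hsub hψ₁ hinj₁ hψ₁0 hψ₁d
      (by
        rw [h4]
        exact hpull₁)
  have hsl : ∀ e : V n, ‖e‖ = 1 → co i1 e = 0 →
      ∃ D₁ : ℝ, Iso (closedBall 0 D₁) (ins B0 B Z ((D + R + 1) • e) 1) (fun _ => B0) := by
    intro e he he2
    exact hS2 n hn B Z B0 R D ψ₁ G e (ev i1) (co i1) hR hRD hB hBF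
      (hψ₁.mono (ball_subset_closedBall.trans hsub)) hψ₁0 hψ₁d
      (fun x hx => hpull₁ x (hsub (by rw [mem_closedBall_zero_iff]; exact hx.le)))
      hG hGid hGψ hZ hZF hZ0 hGp he (norm_ev i1) (abs_co_le i1) he2
      (by rw [co_ev, if_pos rfl])
  have he21 : co i1 (ev i0) = 0 := by rw [co_ev, if_neg (Ne.symm h01)]
  obtain ⟨D₁, hD₁⟩ := hsl (ev i0) (norm_ev i0) he21
  obtain ⟨D₂, hD₂⟩ := hsl (-ev i0) (by rw [norm_neg, norm_ev]) (by rw [map_neg, he21, neg_zero])
  have hD0 : 0 < D := hR.trans hRD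
  constructor
  · obtain ⟨S₁, hS₁⟩ := pair_far hn hPR hMV hIS B Z B0 R D D₁ (ev i0) (co i0) hR hRD hB hBF hZ
      hZF (norm_ev i0) (by rw [co_ev, if_pos rfl]) (abs_co_le i0) hD₁
    obtain ⟨S₂, hS₂⟩ := pair_far hn hPR hMV hIS B Z B0 R D D₂ (-ev i0) (-co i0) hR hRD hB hBF hZ
      hZF (by rw [norm_neg, norm_ev])
      (by rw [ContinuousLinearMap.neg_apply, map_neg, neg_neg, co_ev, if_pos rfl])
      (fun x => by rw [ContinuousLinearMap.neg_apply, abs_neg]; exact abs_co_le i0 x) hD₂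
    obtain ⟨S, hS1', hS2', hS3'⟩ : ∃ S, S₁ ≤ S ∧ S₂ ≤ S ∧ 2 * D + 2 ≤ S :=
      ⟨max (max S₁ S₂) (2 * D + 2), (le_max_left _ _).trans (le_max_left _ _),
        (le_max_right _ _).trans (le_max_left _ _), le_max_right _ _⟩
    obtain ⟨F₁, hF₁, hF₁id, hF₁p⟩ := hS₁ S hS1'
    obtain ⟨F', hF', hF'id, hF'p⟩ := hS₂ S hS2'
    let F₂ : V n ≃ V n :=
      { toFun := fun x => F' (x - S • ev i0) + S • ev i0
        invFun := fun x => F'.symm (x - S • ev i0) + S • ev i0
        left_inv := fun x => by simp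
        right_inv := fun x => by simp }
    have hF₂ : ∀ x, F₂ x = F' (x - S • ev i0) + S • ev i0 := fun x => rfl
    refine hSW (V n) B Z B0 D S (ev i0) (co i0) F₁ F₂ hD0 hS3' (fun x hx => hBF x (by linarith))
      hZF (by rw [co_ev, if_pos rfl]) (abs_co_le i0) hF₁ ?_ hF₁id ?_ ?_ ?_
    · constructor
      · have h1 := hF'.1
        exact (h1.comp (contDiff_id.sub contDiff_const)).add contDiff_const
      · have h1 := hF'.2
        exact (h1.comp (contDiff_id.sub contDiff_const)).add contDiff_const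
    · intro x hx
      rw [hF₂, hF'id, sub_add_cancel]
      rw [ContinuousLinearMap.neg_apply, map_sub, map_smul, co_ev, if_pos rfl, smul_eq_mul,
        mul_one]
      have : -(co i0 x - S) - S / 2 = -(co i0 x - S / 2) := by ring
      rw [this, abs_neg]
      exact hx
    · intro x u v
      have := hF₁p x u v
      simp only [ins, inv_one, one_smul] at this
      exact this
    · intro x u v
      have hd : fderiv ℝ (fun x => F₂ x) x = fderiv ℝ (fun x => F' x) (x - S • ev i0) := by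
        have h1 : (fun x => F₂ x) = fun x => (fun y => F' y) (x - S • ev i0) + S • ev i0 := rfl
        rw [h1, fderiv_add_const, fderiv_comp_sub (f := fun y => F' y)]
      have := hF'p (x - S • ev i0) u v
      rw [hd, this]
      simp only [ins, inv_one, one_smul, smul_neg, sub_neg_eq_add, sub_add_cancel]
      simp only [ContinuousLinearMap.add_apply, ContinuousLinearMap.sub_apply]
      ring
  · refine ⟨Z, D, (D + R + 1) • ev i0, closedBall 0 D₁, hZ, hZF, ?_, isCompact_closedBall _ _,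
      hD₁⟩
    rw [norm_smul, norm_ev, mul_one, Real.norm_of_nonneg (by linarith)]
    linarith

end Pool.Agent.Helper12.SZ
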